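import Pool.Agent.Helper15.LP.Defs

set_option autoImplicit false

/-! PARTZ: the potentials are small. -/

open Finset
open scoped Classical
open Pool.Agent.Helper15.LR

namespace Pool.Agent.Helper15.LP

noncomputable section

theorem PARTZ_sgn_abs (b : Bool) : |sgn b| = 1 := by
  unfold sgn; split_ifs <;> simp

theorem PARTZ_sgn_eq (a b : Bool) : sgn (decide (a = b)) = sgn a * sgn b := by
  cases a <;> cases b <;> simp [sgn]

theorem PARTZ_prod_abs {ι : Type} (S : Finset ι) (f : ι → Bool) : |∏ k ∈ S, sgn (f k)| = 1 := by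
  rw [Finset.abs_prod]
  exact Finset.prod_eq_one fun k _ => PARTZ_sgn_abs _

theorem PARTZ_prod_sq {ι : Type} (S : Finset ι) (f : ι → Bool) : (∏ k ∈ S, sgn (f k)) ^ 2 = 1 := by
  rw [← sq_abs, PARTZ_prod_abs]; norm_num

/-- potentials of the unit vectors -/
def PARTZ_g {V : Type} [Fintype V] (G : SimpleGraph V) (K : ℝ) (a b : V → Bool) (s : Bool)
    (u : V) : V → ℝ :=
  if h : ∃ z, IsPot G a b s K (dl u) z then Classical.choose h else 0

theorem PARTZ_g_spec {V : Type} [Fintype V] (hL : Lap_stmt) (G : SimpleGraph V) (K : ℝ) (hK : 0 < K)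
    (a b : V → Bool) (s : Bool) (u : V) : IsPot G a b s K (dl u) (PARTZ_g G K a b s u) := by
  have h : ∃ z, IsPot G a b s K (dl u) z := (hL V G a b s K hK).1 (dl u)
  unfold PARTZ_g
  rw [dif_pos h]
  exact Classical.choose_spec h

/-- the signs `κ` -/
def PARTZ_k {V : Type} (s : Bool) (p q : (V → Bool) × (V → Bool)) (v : V) : ℝ :=
  (sgn (q.2 v) - sgn s * sgn (p.2 v)) / 2

theorem PARTZ_k_abs {V : Type} (s : Bool) (p q : (V → Bool) × (V → Bool)) (v : V) :
    |PARTZ_k s p q v| ≤ 1 := by
  unfold PARTZ_k sgn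
  cases s <;> cases q.2 v <;> cases p.2 v <;> norm_num

abbrev PARTZ_I {m : ℕ} (i j : Fin m) : Type := {k : Fin m // k ≠ i ∧ k ≠ j}

def PARTZ_val {V : Type} [Fintype V] (G : SimpleGraph V) {m : ℕ} (i j : Fin m) (s : Bool)
    (x : Fin m → (V → Bool) × (V → Bool)) (g : V → ℝ) (S : Finset (PARTZ_I i j)) : ℝ :=
  ∑ v, (PARTZ_k s (x i) (x j) v * ∏ k ∈ S, sgn ((x k.1).2 v)) *
    Av G (fun w => g w * ∏ k ∈ S, sgn ((x k.1).1 w)) v

theorem PARTZ_card {V : Type} {m : ℕ} (i j : Fin m)
    (x : Fin m → (V → Bool) × (V → Bool)) (w v : V) :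
    (univ.filter (fun k : Fin m => k ≠ i ∧ k ≠ j ∧ (x k).1 w ≠ (x k).2 v)).card
      = (univ.filter (fun k : PARTZ_I i j => decide ((x k.1).1 w = (x k.1).2 v) = false)).card := by
  symm
  apply Finset.card_bij (fun k _ => k.1)
  · intro k hk
    simp only [Finset.mem_filter, Finset.mem_univ, true_and, decide_eq_false_iff_not] at hk ⊢
    exact ⟨k.2.1, k.2.2, hk⟩
  · intro a _ b _ h
    exact Subtype.ext h
  · intro k hk
    simp only [Finset.mem_filter, Finset.mem_univ, true_and] at hk
    refine ⟨⟨k, hk.1, hk.2.1⟩, ?_, rfl⟩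
    simp only [Finset.mem_filter, Finset.mem_univ, true_and, decide_eq_false_iff_not]
    exact hk.2.2

theorem PARTZ_expand (hF : Fourier_stmt) {m : ℕ} (i j : Fin m) :
    ∃ c : Finset (PARTZ_I i j) → ℝ, (∀ S, 0 ≤ c S) ∧ ∑ S, c S = 1 ∧
      ∀ (V : Type) [Fintype V] (G : SimpleGraph V) (s : Bool)
        (x : Fin m → (V → Bool) × (V → Bool)) (g : V → ℝ),
        ∑ w, Th G i j s x w * g w = ∑ S, c S * PARTZ_val G i j s x g S := by
  obtain ⟨c, hc0, hc1, hc⟩ := hF (PARTZ_I i j)
  refine ⟨c, hc0, hc1, ?_⟩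
  intro V _ G s x g
  have hL : ∑ w, Th G i j s x w * g w
      = ∑ w, ∑ v, (if G.Adj w v then PARTZ_k s (x i) (x j) v *
          (∑ S, c S * ∏ k ∈ S, (sgn ((x k.1).1 w) * sgn ((x k.1).2 v))) * g w else 0) := by
    apply Finset.sum_congr rfl
    intro w _
    unfold Th Nb
    rw [Finset.sum_mul, Finset.sum_filter]
    apply Finset.sum_congr rfl
    intro v _
    by_cases h : G.Adj w v
    · rw [if_pos h, if_pos h, PARTZ_card, hc]
      unfold PARTZ_k
      congr 2
      apply Finset.sum_congr rfl
      intro S _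
      congr 1
      apply Finset.prod_congr rfl
      intro k _
      exact PARTZ_sgn_eq _ _
    · rw [if_neg h, if_neg h]
  have hR : ∑ S, c S * PARTZ_val G i j s x g S
      = ∑ S, ∑ v, ∑ w, (if G.Adj w v then PARTZ_k s (x i) (x j) v *
          (c S * ∏ k ∈ S, (sgn ((x k.1).1 w) * sgn ((x k.1).2 v))) * g w else 0) := by
    apply Finset.sum_congr rfl
    intro S _
    unfold PARTZ_val
    rw [Finset.mul_sum]
    apply Finset.sum_congr rfl
    intro v _
    unfold Av Nb
    rw [Finset.sum_filter, Finset.mul_sum, Finset.mul_sum]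
    apply Finset.sum_congr rfl
    intro w _
    by_cases h : G.Adj w v
    · rw [if_pos h, if_pos h.symm, Finset.prod_mul_distrib]
      ring
    · rw [if_neg h, if_neg (fun h2 => h h2.symm)]
      ring
  rw [hL, hR, Finset.sum_comm]
  rw [Finset.sum_comm (s := univ) (t := univ)
    (f := fun (S : Finset (PARTZ_I i j)) (v : V) => ∑ w, (if G.Adj w v then PARTZ_k s (x i) (x j) v *
          (c S * ∏ k ∈ S, (sgn ((x k.1).1 w) * sgn ((x k.1).2 v))) * g w else 0))]
  apply Finset.sum_congr rfl
  intro v _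
  rw [Finset.sum_comm (s := univ) (t := univ)
    (f := fun (S : Finset (PARTZ_I i j)) (w : V) => (if G.Adj w v then PARTZ_k s (x i) (x j) v *
          (c S * ∏ k ∈ S, (sgn ((x k.1).1 w) * sgn ((x k.1).2 v))) * g w else 0))]
  apply Finset.sum_congr rfl
  intro w _
  by_cases h : G.Adj w v
  · simp only [if_pos h]
    rw [Finset.mul_sum, Finset.sum_mul]
  · simp only [if_neg h, Finset.sum_const_zero]

/-- convexity -/
theorem PARTZ_convex {ι : Type} [Fintype ι] (c f : ι → ℝ) (hc : ∀ i, 0 ≤ c i) (h1 : ∑ i, c i = 1)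
    (B : ℝ) (h : B < |∑ i, c i * f i|) : ∃ i, B < |f i| := by
  by_contra hcon
  push Not at hcon
  have h2 : |∑ i, c i * f i| ≤ ∑ i, c i * B := by
    refine (Finset.abs_sum_le_sum_abs _ _).trans (Finset.sum_le_sum fun i _ => ?_)
    rw [abs_mul, abs_of_nonneg (hc i)]
    exact mul_le_mul_of_nonneg_left (hcon i) (hc i)
  rw [← Finset.sum_mul, h1, one_mul] at h2
  linarith

theorem PARTZ_w_sum {V : Type} [Fintype V] {G : SimpleGraph V} {D m : ℕ} {R : Finset V}
    {w : (V → Bool) × (V → Bool) → ℝ} (hw : LevelW G D m R w) : ∑ p, w p = 1 := by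
  rw [Fintype.sum_prod_type]
  rw [Finset.sum_congr rfl (fun x _ => hw.2.1 x), Finset.sum_const, Finset.card_univ,
    Fintype.card_fun, Fintype.card_bool, nsmul_eq_mul]
  push_cast
  rw [← mul_pow]
  norm_num

theorem PARTZ_ite (P : Prop) (h1 h2 : Decidable P) (a b : ℝ) :
    @ite ℝ P h1 a b = @ite ℝ P h2 a b := by
  by_cases h : P
  · rw [if_pos h, if_pos h]
  · rw [if_neg h, if_neg h]

/-- the bad pairs -/
theorem PARTZ_bad {V : Type} [Fintype V] {G : SimpleGraph V} {D m : ℕ} {R : Finset V}
    {w : (V → Bool) × (V → Bool) → ℝ} (hw : LevelW G D m R w) (Q : (V → Bool) → (V → Bool) → Prop)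
    (δ : ℝ) (h : ((univ.filter (fun p : (V → Bool) × (V → Bool) => Q p.1 p.2)).card : ℝ) ≤
      4 ^ Fintype.card V * δ) :
    ∑ p, ∑ q, (if Q p.1 q.1 then w p * w q else 0) ≤ δ := by
  set n := Fintype.card V with hn
  have e : ∑ p, ∑ q, (if Q p.1 q.1 then w p * w q else 0)
      = ∑ a : V → Bool, ∑ b : V → Bool, (if Q a b then ((1 / 2 : ℝ) ^ n) * (1 / 2) ^ n else 0) := by
    rw [Fintype.sum_prod_type]
    apply Finset.sum_congr rfl
    intro a _
    have e1 : ∀ a' : V → Bool, ∑ q, (if Q (a, a').1 q.1 then w (a, a') * w q else 0)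
        = ∑ b : V → Bool, (if Q a b then w (a, a') * (1 / 2) ^ n else 0) := by
      intro a'
      rw [Fintype.sum_prod_type]
      apply Finset.sum_congr rfl
      intro b _
      by_cases h : Q a b
      · simp only [h, if_true]
        rw [← Finset.mul_sum, hw.2.1 b, ← hn]
      · simp only [h, if_false, Finset.sum_const_zero]
    rw [Finset.sum_congr rfl (fun a' _ => e1 a'), Finset.sum_comm]
    apply Finset.sum_congr rfl
    intro b _
    by_cases h : Q a b
    · simp only [h, if_true]
      rw [← Finset.sum_mul, hw.2.1 a, ← hn]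
    · simp only [h, if_false, Finset.sum_const_zero]
  rw [e]
  have e2 : ∑ a : V → Bool, ∑ b : V → Bool, (if Q a b then ((1 / 2 : ℝ) ^ n) * (1 / 2) ^ n else 0)
      = ((univ.filter (fun p : (V → Bool) × (V → Bool) => Q p.1 p.2)).card : ℝ)
        * (((1 / 2 : ℝ) ^ n) * (1 / 2) ^ n) := by
    rw [← Fintype.sum_prod_type' (f := fun a b => if Q a b then ((1 / 2 : ℝ) ^ n) * (1 / 2) ^ n else 0),
      ← Finset.sum_filter, Finset.sum_const, nsmul_eq_mul]
  rw [e2]
  have h4 : ((1 / 2 : ℝ) ^ n) * (1 / 2) ^ n = 1 / 4 ^ n := by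
    rw [← mul_pow, one_div, one_div, ← inv_pow]
    norm_num
  rw [h4, mul_one_div, div_le_iff₀ (by positivity)]
  linarith

theorem lp_PARTZ (hS : PartS_stmt) (hM : PartM_stmt) (hGP : GoodPair_stmt) (hGr : Green_stmt)
    (hF : Fourier_stmt) (hL : Lap_stmt) (hc1 : PPCond1_stmt) (hc2 : PPCond2_stmt)
    (hu : PPUnion_stmt) : PartZ_stmt := by
  intro V _ G D m R w i j hreg hm hn hD hR hbad hw hij
  have hm1 : (1 : ℝ) ≤ m := by exact_mod_cast (by omega : 1 ≤ m)
  have hm60 : (60 : ℝ) ≤ m := by exact_mod_cast hm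
  have hmm : m ≤ m ^ 3 := by
    calc m = m * 1 := (mul_one m).symm
      _ ≤ m * m ^ 2 := Nat.mul_le_mul_left _ (Nat.one_le_pow _ _ (by omega))
      _ = m ^ 3 := by ring
  have hD1 : 1 ≤ D := by omega
  have hDm : 10 ^ 4 * m ≤ D := le_trans (Nat.mul_le_mul_left _ hmm) hD
  have hDR : (0 : ℝ) < D := by exact_mod_cast hD1
  have hK : 0 < Real.sqrt D := Real.sqrt_pos.mpr hDR
  have hws := PARTZ_w_sum hw
  obtain ⟨c, hc0, hcs, hexp⟩ := PARTZ_expand hF i j
  have hBZ : 10 ^ 4 * m / Real.sqrt D ≤ BZ D m := by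
    unfold BZ
    have h1 : (1 : ℝ) ≤ Real.sqrt m := Real.one_le_sqrt.mpr hm1
    apply div_le_div_of_nonneg_right _ hK.le
    have : (m : ℝ) * 1 ≤ m * Real.sqrt m := mul_le_mul_of_nonneg_left h1 (by linarith)
    linarith
  have hBZ2 : 6000 * (m * Real.sqrt m) / Real.sqrt D ≤ BZ D m := by
    unfold BZ
    apply div_le_div_of_nonneg_right _ hK.le
    have : 0 ≤ (m : ℝ) * Real.sqrt m := by positivity
    linarith
  -- the events
  set J := Option (Option (Finset (PARTZ_I i j) × Bool × V)) with hJ
  let B : J → Set (Fin m → (V → Bool) × (V → Bool)) := fun o => match o with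
    | none => {x | ¬ GoodPair G D m (x i).1 (x j).1}
    | some none => {x | ∃ (s : Bool) (u : V) (g : V → ℝ), Ve (x i).1 (x j).1 s u ∧
        IsPot G (x i).1 (x j).1 s (Real.sqrt D) (dl u) g ∧
        6000 * (m * Real.sqrt m) / Real.sqrt D <
          |∑ v, (sgn ((x j).2 v) - sgn s * sgn ((x i).2 v)) / 2 * Av G g v|}
    | some (some (S, s, u)) => {x | S.Nonempty ∧ GoodPair G D m (x i).1 (x j).1 ∧
        Ve (x i).1 (x j).1 s u ∧
        10 ^ 4 * m / Real.sqrt D <
          |PARTZ_val G i j s x (PARTZ_g G (Real.sqrt D) (x i).1 (x j).1 s u) S|}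
  have hcover := hu (Fin m) ((V → Bool) × (V → Bool)) J (fun _ p => w p)
    {x | ∃ (s : Bool) (u : V) (z : V → ℝ), Ve (x i).1 (x j).1 s u ∧
        IsPot G (x i).1 (x j).1 s (Real.sqrt D) (Th G i j s x) z ∧ BZ D m < |z u|} B
    (fun _ p => hw.1 p) ?_
  · refine hcover.trans ?_
    rw [Fintype.sum_option, Fintype.sum_option]
    -- first event
    have b1 : PP (fun (_ : Fin m) (p : (V → Bool) × (V → Bool)) => w p) (B none) ≤ Real.exp (-m) := by
      have e := hc2 (Fin m) ((V → Bool) × (V → Bool)) w (fun p q => ¬ GoodPair G D m p.1 q.1) i j hij hws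
      have e2 : B none = {x | ¬ GoodPair G D m (x i).1 (x j).1} := rfl
      rw [e2, e]
      refine PARTZ_bad hw (fun a b => ¬ GoodPair G D m a b) _ ?_
      refine le_trans (le_of_eq ?_) (hGP V G D m hreg hD1 hm hn)
      have e5 : ∀ (A C : Finset ((V → Bool) × (V → Bool))), A = C → (A.card : ℝ) = C.card := by
        intro A C h; rw [h]
      apply e5
      ext p
      simp only [Finset.mem_filter]
    have b2 : PP (fun (_ : Fin m) (p : (V → Bool) × (V → Bool)) => w p) (B (some none))
        ≤ 3 * Real.exp (-m) := by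
      have e := hc2 (Fin m) ((V → Bool) × (V → Bool)) w (fun p q =>
        ∃ (s : Bool) (u : V) (g : V → ℝ), Ve p.1 q.1 s u ∧
        IsPot G p.1 q.1 s (Real.sqrt D) (dl u) g ∧
        6000 * (m * Real.sqrt m) / Real.sqrt D <
          |∑ v, (sgn (q.2 v) - sgn s * sgn (p.2 v)) / 2 * Av G g v|) i j hij hws
      have e2 : B (some none) = {x | ∃ (s : Bool) (u : V) (g : V → ℝ), Ve (x i).1 (x j).1 s u ∧
        IsPot G (x i).1 (x j).1 s (Real.sqrt D) (dl u) g ∧
        6000 * (m * Real.sqrt m) / Real.sqrt D <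
          |∑ v, (sgn ((x j).2 v) - sgn s * sgn ((x i).2 v)) / 2 * Av G g v|} := rfl
      rw [e2, e]
      refine le_trans (le_of_eq ?_) (hM V G D m R w hreg hm hn hDm hR hbad hw)
      apply Finset.sum_congr rfl
      intro p _
      apply Finset.sum_congr rfl
      intro q _
      exact PARTZ_ite _ _ _ _ _
    have b3 : ∀ t : Finset (PARTZ_I i j) × Bool × V,
        PP (fun (_ : Fin m) (p : (V → Bool) × (V → Bool)) => w p) (B (some (some t)))
          ≤ Real.exp (-(3 / 2 * m)) := by
      rintro ⟨S, s, u⟩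
      by_cases hSne : S.Nonempty
      swap
      · have e2 : B (some (some (S, s, u))) = ∅ := by
          apply Set.eq_empty_of_forall_notMem
          intro x hx
          exact hSne hx.1
        rw [e2]
        unfold PP
        simp only [Set.mem_empty_iff_false, if_false, Finset.sum_const_zero]
        positivity
      obtain ⟨k, hk⟩ := hSne
      refine hc1 (Fin m) ((V → Bool) × (V → Bool)) w _ k.1 _ hw.1 hws ?_
      intro x
      have hki : k.1 ≠ i := k.2.1
      have hkj : k.1 ≠ j := k.2.2
      by_cases hgood : GoodPair G D m (x i).1 (x j).1 ∧ Ve (x i).1 (x j).1 s u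
      swap
      · have h0 : ∀ p, (if Function.update x k.1 p ∈ B (some (some (S, s, u))) then w p else 0) = 0 := by
          intro p
          rw [if_neg]
          intro hx
          have h1 := hx.2.1
          have h2 := hx.2.2.1
          rw [Function.update_of_ne hki.symm, Function.update_of_ne hkj.symm] at h1 h2
          exact hgood ⟨h1, h2⟩
        refine le_trans (le_of_eq (Finset.sum_eq_zero fun p _ => ?_)) (Real.exp_pos _).le
        exact (PARTZ_ite _ _ _ _ _).trans (h0 p)
      obtain ⟨hgp, hve⟩ := hgood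
      set g := PARTZ_g G (Real.sqrt D) (x i).1 (x j).1 s u with hg
      have hpot := PARTZ_g_spec hL G (Real.sqrt D) hK (x i).1 (x j).1 s u
      have hgreen := hGr V G D m (x i).1 (x j).1 s u g hreg (by omega) (by omega) hgp hve hpot
      -- the modified functions
      set κ' : V → ℝ := fun v => PARTZ_k s (x i) (x j) v * ∏ l ∈ S.erase k, sgn ((x l.1).2 v) with hκ'
      set g' : V → ℝ := fun v => g v * ∏ l ∈ S.erase k, sgn ((x l.1).1 v) with hg'
      have k1 : ∀ v, |κ' v| ≤ 1 := by
        intro v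
        simp only [hκ']
        rw [abs_mul, PARTZ_prod_abs, mul_one]
        exact PARTZ_k_abs _ _ _ _
      have k2 : ∑ v, |g' v| ≤ 1 / Real.sqrt D := by
        have : ∀ v ∈ (univ : Finset V), |g' v| = |g v| := by
          intro v _
          simp only [hg']
          rw [abs_mul, PARTZ_prod_abs, mul_one]
        rw [Finset.sum_congr rfl this]
        exact hgreen.1
      have k3 : S2 g' ≤ 144 / (D : ℝ) ^ 2 := by
        have e3 : S2 g' = S2 g := by
          unfold S2
          apply Finset.sum_congr rfl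
          intro v _
          simp only [hg']
          rw [mul_pow, PARTZ_prod_sq, mul_one]
        rw [e3]
        exact hgreen.2.1
      have hfin := hS V G D m R w κ' g' hreg hm hn hD hR hw k1 k2 k3
      refine le_trans (Finset.sum_le_sum fun p _ => ?_) hfin
      by_cases hx : Function.update x k.1 p ∈ B (some (some (S, s, u)))
      · rw [if_pos hx]
        have h3 := hx.2.2.2
        have e4 : PARTZ_val G i j s (Function.update x k.1 p)
            (PARTZ_g G (Real.sqrt D) (Function.update x k.1 p i).1 (Function.update x k.1 p j).1 s u) S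
            = ∑ v, κ' v * sgn (p.2 v) * Av G (fun u => g' u * sgn (p.1 u)) v := by
          unfold PARTZ_val
          rw [Function.update_of_ne hki.symm, Function.update_of_ne hkj.symm, ← hg]
          have h5 : ∀ (F : (V → Bool) × (V → Bool) → Bool), ∏ l ∈ S, sgn (F (Function.update x k.1 p l.1))
              = (∏ l ∈ S.erase k, sgn (F (x l.1))) * sgn (F p) := by
            intro F
            rw [← Finset.prod_erase_mul S _ hk, Function.update_self]
            congr 1
            apply Finset.prod_congr rfl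
            intro l hl
            have hne : l.1 ≠ k.1 := fun h => (Finset.mem_erase.mp hl).1 (Subtype.ext h)
            rw [Function.update_of_ne hne]
          apply Finset.sum_congr rfl
          intro v _
          rw [h5 (fun q => q.2 v)]
          have h6 : (fun w => g w * ∏ l ∈ S, sgn ((Function.update x k.1 p l.1).1 w))
              = (fun u => g' u * sgn (p.1 u)) := by
            funext w'
            rw [h5 (fun q => q.1 w')]
            simp only [hg']
            ring
          rw [h6]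
          simp only [hκ']
          ring
        rw [e4] at h3
        rw [if_pos h3]
      · rw [if_neg hx]
        split_ifs
        · exact hw.1 p
        · exact le_refl _
    have b4 : ∑ t : Finset (PARTZ_I i j) × Bool × V,
        PP (fun (_ : Fin m) (p : (V → Bool) × (V → Bool)) => w p) (B (some (some t)))
        ≤ 2 ^ m * (2 * Real.exp (m / 100)) * Real.exp (-(3 / 2 * m)) := by
      refine (Finset.sum_le_sum fun t _ => b3 t).trans ?_
      rw [Finset.sum_const, Finset.card_univ, nsmul_eq_mul]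
      apply mul_le_mul_of_nonneg_right _ (by positivity)
      rw [Fintype.card_prod, Fintype.card_prod, Fintype.card_finset, Fintype.card_bool]
      push_cast
      have h1 : Fintype.card (PARTZ_I i j) ≤ m := by
        have := Fintype.card_subtype_le (fun k : Fin m => k ≠ i ∧ k ≠ j)
        rw [Fintype.card_fin] at this
        exact this
      have h2 : (2 : ℝ) ^ Fintype.card (PARTZ_I i j) ≤ 2 ^ m := pow_le_pow_right₀ (by norm_num) h1
      exact mul_le_mul h2 (by linarith) (by positivity) (by positivity)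
    -- numbers
    have n1 : (2 : ℝ) ^ m ≤ Real.exp (0.7 * m) := by
      have : (2 : ℝ) ≤ Real.exp 0.7 := by
        have h := Real.exp_log (show (0 : ℝ) < 2 by norm_num)
        rw [← h]
        apply Real.exp_le_exp.mpr
        have := Real.log_two_lt_d9
        norm_num at this ⊢
        linarith
      calc (2 : ℝ) ^ m ≤ (Real.exp 0.7) ^ m := pow_le_pow_left₀ (by norm_num) this m
        _ = Real.exp (0.7 * m) := by rw [← Real.exp_nat_mul, mul_comm]
    have n2 : 2 ^ m * (2 * Real.exp (m / 100)) * Real.exp (-(3 / 2 * m)) ≤ 2 * Real.exp (-(m / 2)) := by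
      have h1 : (2 : ℝ) ^ m * (2 * Real.exp (m / 100)) * Real.exp (-(3 / 2 * m))
          ≤ Real.exp (0.7 * m) * (2 * Real.exp (m / 100)) * Real.exp (-(3 / 2 * m)) := by
        apply mul_le_mul_of_nonneg_right _ (by positivity)
        exact mul_le_mul_of_nonneg_right n1 (by positivity)
      refine h1.trans ?_
      have h2 : Real.exp (0.7 * m) * (2 * Real.exp (m / 100)) * Real.exp (-(3 / 2 * m))
          = 2 * Real.exp (0.7 * m + m / 100 + -(3 / 2 * m)) := by
        rw [Real.exp_add, Real.exp_add]; ring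
      rw [h2]
      apply mul_le_mul_of_nonneg_left _ (by norm_num)
      apply Real.exp_le_exp.mpr
      linarith
    have n3 : Real.exp (-(m : ℝ)) ≤ (1 / 2) * Real.exp (-(m / 2)) := by
      have h1 : Real.exp (-(m : ℝ)) = Real.exp (-(m / 2)) * Real.exp (-(m / 2)) := by
        rw [← Real.exp_add]; congr 1; ring
      rw [h1]
      apply mul_le_mul_of_nonneg_right _ (by positivity)
      have h2 : Real.exp (-((m : ℝ) / 2)) ≤ Real.exp (-1) := by
        apply Real.exp_le_exp.mpr; linarith
      have h3 : Real.exp (-1) ≤ 1 / 2 := by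
        rw [Real.exp_neg]
        have := Real.add_one_le_exp (1 : ℝ)
        rw [inv_eq_one_div]
        apply one_div_le_one_div_of_le (by norm_num)
        linarith
      linarith
    have n4 : 0 < Real.exp (-((m : ℝ) / 2)) := Real.exp_pos _
    linarith
  · -- the covering
    intro x hx
    obtain ⟨s, u, z, hve, hz, hzu⟩ := hx
    by_cases hgp : GoodPair G D m (x i).1 (x j).1
    swap
    · exact ⟨none, hgp⟩
    set g := PARTZ_g G (Real.sqrt D) (x i).1 (x j).1 s u with hg
    have hpot := PARTZ_g_spec hL G (Real.sqrt D) hK (x i).1 (x j).1 s u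
    rw [← hg] at hpot
    have hsym := (hL V G (x i).1 (x j).1 s (Real.sqrt D) hK).2.2.2.1 (Th G i j s x) (dl u) z g hz hpot
    have e1 : ∑ v, (if Ve (x i).1 (x j).1 s v then dl u v * z v else 0) = z u := by
      rw [Finset.sum_eq_single u]
      · rw [if_pos hve]
        unfold dl
        rw [if_pos rfl, one_mul]
      · intro v _ hv
        unfold dl
        rw [if_neg hv, zero_mul]
        simp
      · intro h; exact absurd (Finset.mem_univ u) h
    have e2 : ∑ v, (if Ve (x i).1 (x j).1 s v then Th G i j s x v * g v else 0)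
        = ∑ v, Th G i j s x v * g v := by
      apply Finset.sum_congr rfl
      intro v _
      by_cases h : Ve (x i).1 (x j).1 s v
      · rw [if_pos h]
      · rw [if_neg h, hpot.1 v h, mul_zero]
    rw [e1, e2, hexp V G s x g] at hsym
    rw [← hsym] at hzu
    obtain ⟨S, hSb⟩ := PARTZ_convex c _ hc0 hcs _ hzu
    rcases S.eq_empty_or_nonempty with h0 | h0
    · refine ⟨some none, s, u, g, hve, hpot, ?_⟩
      have e3 : PARTZ_val G i j s x g S = ∑ v, (sgn ((x j).2 v) - sgn s * sgn ((x i).2 v)) / 2 * Av G g v := by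
        rw [h0]
        unfold PARTZ_val PARTZ_k
        simp only [Finset.prod_empty, mul_one]
      rw [e3] at hSb
      linarith
    · refine ⟨some (some (S, s, u)), h0, hgp, hve, ?_⟩
      rw [← hg]
      linarith

end

end Pool.Agent.Helper15.LP
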